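import Pool.Agent.H547.C9.Six

/-!
# The six congruences for the primes between 5 and 60
-/

set_option autoImplicit false

namespace Pool.Agent.H134.C9

open Finset Pool.Agent.H547.C9

theorem c_fac (k : ℕ) : c k * (k.factorial ^ 3 * (3 * k).factorial) = (6 * k).factorial := by
  have h1 := Nat.choose_mul_factorial_mul_factorial (show k ≤ 2 * k by omega)
  have h2 := Nat.choose_mul_factorial_mul_factorial (show k ≤ 3 * k by omega)
  have h3 := Nat.choose_mul_factorial_mul_factorial (show 3 * k ≤ 6 * k by omega)
  rw [show 2 * k - k = k by omega] at h1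
  rw [show 3 * k - k = 2 * k by omega] at h2
  rw [show 6 * k - 3 * k = 3 * k by omega] at h3
  have p2 : 0 < (2 * k).factorial := Nat.factorial_pos _
  have p3 : 0 < (3 * k).factorial := Nat.factorial_pos _
  apply Nat.eq_of_mul_eq_mul_right (Nat.mul_pos p2 p3)
  calc c k * (k.factorial ^ 3 * (3 * k).factorial) * ((2 * k).factorial * (3 * k).factorial)
      = ((2 * k).choose k * k.factorial * k.factorial) *
        ((3 * k).choose k * k.factorial * (2 * k).factorial) *
        ((6 * k).choose (3 * k) * (3 * k).factorial * (3 * k).factorial) := by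
        unfold c
        ring
    _ = (6 * k).factorial * ((2 * k).factorial * (3 * k).factorial) := by
        rw [h1, h2, h3]
        ring

theorem c_succ (k : ℕ) :
    c (k + 1) * (k + 1) ^ 3 = 24 * (6 * k + 1) * (2 * k + 1) * (6 * k + 5) * c k := by
  have h0 := c_fac k
  have h1 := c_fac (k + 1)
  have e1 : (k + 1).factorial = (k + 1) * k.factorial := Nat.factorial_succ k
  have e2 : (3 * (k + 1)).factorial =
      (3 * k + 3) * ((3 * k + 2) * ((3 * k + 1) * (3 * k).factorial)) := by
    rw [show 3 * (k + 1) = 3 * k + 3 by ring]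
    rfl
  have e3 : (6 * (k + 1)).factorial = (6 * k + 6) * ((6 * k + 5) * ((6 * k + 4) * ((6 * k + 3) *
      ((6 * k + 2) * ((6 * k + 1) * (6 * k).factorial))))) := by
    rw [show 6 * (k + 1) = 6 * k + 6 by ring]
    rfl
  rw [e1, e2, e3, ← h0] at h1
  have pk : 0 < k.factorial ^ 3 * (3 * k).factorial :=
    Nat.mul_pos (pow_pos (Nat.factorial_pos _) 3) (Nat.factorial_pos _)
  have pd : 0 < (3 * k + 3) * ((3 * k + 2) * (3 * k + 1)) := by positivity
  apply Nat.eq_of_mul_eq_mul_right (Nat.mul_pos pk pd)
  calc c (k + 1) * (k + 1) ^ 3 *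
        (k.factorial ^ 3 * (3 * k).factorial * ((3 * k + 3) * ((3 * k + 2) * (3 * k + 1))))
      = c (k + 1) * (((k + 1) * k.factorial) ^ 3 *
        ((3 * k + 3) * ((3 * k + 2) * ((3 * k + 1) * (3 * k).factorial)))) := by ring
    _ = _ := by
        rw [h1]
        ring

/-- the running sums -/
def st (a b m : ℤ) : ℕ → ℕ × ℤ
  | 0 => (1, 0)
  | k + 1 => (24 * (6 * k + 1) * (2 * k + 1) * (6 * k + 5) * (st a b m k).1 / (k + 1) ^ 3,
      (st a b m k).2 * m + (a * k + b) * (st a b m k).1)

theorem st_eq (a b m : ℤ) (k : ℕ) :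
    st a b m k = (c k, ∑ j ∈ range k, (a * j + b) * (c j : ℤ) * m ^ (k - 1 - j)) := by
  induction k with
  | zero => simp [st, c]
  | succ k ih =>
    rw [st, ih]
    simp only [Prod.mk.injEq]
    refine ⟨?_, ?_⟩
    · rw [← c_succ k]
      exact Nat.mul_div_cancel _ (by positivity)
    · rw [sum_range_succ, sum_mul, show k + 1 - 1 - k = 0 by omega, pow_zero, mul_one]
      congr 1
      refine sum_congr rfl fun j hj => ?_
      rw [mem_range] at hj
      rw [show (k + 1 - 1 - j) = (k - 1 - j) + 1 by omega, pow_add]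
      ring

theorem small_one (p : ℕ) (hp : p.Prime) (a b m r : ℤ) (y : ℚ) (hy : y = (r : ℚ))
    (hm : ¬ (p : ℤ) ∣ m) (h : (p : ℤ) ^ 2 ∣ (st a b m p).2 - r * m ^ (p - 1)) :
    Cong p (T6 a b m p) y := by
  have hm0 : (m : ℚ) ≠ 0 := by
    intro h
    have : m = 0 := by exact_mod_cast h
    exact hm (this ▸ dvd_zero _)
  have key : (T6 a b m p - y) * ((m ^ (p - 1) : ℤ) : ℚ) =
      (((st a b m p).2 - r * m ^ (p - 1) : ℤ) : ℚ) := by
    rw [st_eq, hy]
    unfold T6
    rw [sub_mul, sum_mul]
    push_cast
    congr 1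
    refine sum_congr rfl fun k hk => ?_
    rw [mem_range] at hk
    have e : (m : ℚ) ^ (p - 1) = (m : ℚ) ^ (p - 1 - k) * (m : ℚ) ^ k := by
      rw [← pow_add]
      congr 1
      omega
    rw [e]
    field_simp
  unfold Cong
  obtain ⟨x, hx⟩ : ∃ x, x = T6 a b m p - y := ⟨_, rfl⟩
  rw [← hx] at key ⊢
  have k2 : x.num * m ^ (p - 1) = ((st a b m p).2 - r * m ^ (p - 1)) * x.den := by
    have h1 : (x.num : ℚ) = x * x.den := (Rat.mul_den_eq_num x).symm
    have h2 : ((x.num * m ^ (p - 1) : ℤ) : ℚ) =
        ((((st a b m p).2 - r * m ^ (p - 1)) * x.den : ℤ) : ℚ) := by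
      rw [Int.cast_mul, Int.cast_mul, ← key, h1, Int.cast_natCast]
      ring
    exact_mod_cast h2
  have h3 : (p : ℤ) ^ 2 ∣ x.num * m ^ (p - 1) := by
    rw [k2]
    exact Dvd.dvd.mul_right h _
  have hc : IsCoprime ((p : ℤ) ^ 2) (m ^ (p - 1)) := by
    apply IsCoprime.pow
    exact (Prime.coprime_iff_not_dvd (Nat.prime_iff_prime_int.1 hp)).2 hm
  exact hc.dvd_of_dvd_mul_right h3

theorem six_7 [Fact (Nat.Prime 7)] : Six 7 := by
  have hp : Nat.Prime 7 := Fact.out
  have l255 : legendreSym 7 (-255) = 1 := by norm_num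
  have l33 : legendreSym 7 (-33) = 1 := by norm_num
  have l30 : legendreSym 7 (-30) = -1 := by norm_num
  have l15 : legendreSym 7 (-15) = -1 := by norm_num
  have l5 : legendreSym 7 (-5) = 1 := by norm_num
  refine ⟨?_, ?_, ?_, ?_, ?_, ?_⟩
  · exact small_one 7 hp 63 8 ((-15) ^ 3) (-56) _ (by rw [l15]; norm_num) (by norm_num)
      (by decide +kernel)
  · intro _
    exact small_one 7 hp 133 8 (255 ^ 3) (56) _ (by rw [l255]; norm_num) (by norm_num)
      (by decide +kernel)
  · exact small_one 7 hp 28 3 (20 ^ 3) (21) _ (by rw [l5]; norm_num) (by norm_num)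
      (by decide +kernel)
  · intro _
    exact small_one 7 hp 63 5 (66 ^ 3) (35) _ (by rw [l33]; norm_num) (by norm_num)
      (by decide +kernel)
  · exact small_one 7 hp 11 1 (54000) (-7) _ (by rw [l15]; norm_num) (by norm_num)
      (by decide +kernel)
  · exact small_one 7 hp 506 31 (-12288000) (-217) _ (by rw [l30]; norm_num) (by norm_num)
      (by decide +kernel)

theorem six_11 [Fact (Nat.Prime 11)] : Six 11 := by
  have hp : Nat.Prime 11 := Fact.out
  have l255 : legendreSym 11 (-255) = 1 := by norm_num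
  have l30 : legendreSym 11 (-30) = 1 := by norm_num
  have l15 : legendreSym 11 (-15) = -1 := by norm_num
  have l5 : legendreSym 11 (-5) = -1 := by norm_num
  refine ⟨?_, ?_, ?_, ?_, ?_, ?_⟩
  · exact small_one 11 hp 63 8 ((-15) ^ 3) (-88) _ (by rw [l15]; norm_num) (by norm_num)
      (by decide +kernel)
  · intro _
    exact small_one 11 hp 133 8 (255 ^ 3) (88) _ (by rw [l255]; norm_num) (by norm_num)
      (by decide +kernel)
  · exact small_one 11 hp 28 3 (20 ^ 3) (-33) _ (by rw [l5]; norm_num) (by norm_num)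
      (by decide +kernel)
  · intro h
    exact absurd rfl h
  · exact small_one 11 hp 11 1 (54000) (-11) _ (by rw [l15]; norm_num) (by norm_num)
      (by decide +kernel)
  · exact small_one 11 hp 506 31 (-12288000) (341) _ (by rw [l30]; norm_num) (by norm_num)
      (by decide +kernel)

theorem six_13 [Fact (Nat.Prime 13)] : Six 13 := by
  have hp : Nat.Prime 13 := Fact.out
  have l255 : legendreSym 13 (-255) = -1 := by norm_num
  have l33 : legendreSym 13 (-33) = -1 := by norm_num
  have l30 : legendreSym 13 (-30) = 1 := by norm_num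
  have l15 : legendreSym 13 (-15) = -1 := by norm_num
  have l5 : legendreSym 13 (-5) = -1 := by norm_num
  refine ⟨?_, ?_, ?_, ?_, ?_, ?_⟩
  · exact small_one 13 hp 63 8 ((-15) ^ 3) (-104) _ (by rw [l15]; norm_num) (by norm_num)
      (by decide +kernel)
  · intro _
    exact small_one 13 hp 133 8 (255 ^ 3) (-104) _ (by rw [l255]; norm_num) (by norm_num)
      (by decide +kernel)
  · exact small_one 13 hp 28 3 (20 ^ 3) (-39) _ (by rw [l5]; norm_num) (by norm_num)
      (by decide +kernel)
  · intro _
    exact small_one 13 hp 63 5 (66 ^ 3) (-65) _ (by rw [l33]; norm_num) (by norm_num)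
      (by decide +kernel)
  · exact small_one 13 hp 11 1 (54000) (-13) _ (by rw [l15]; norm_num) (by norm_num)
      (by decide +kernel)
  · exact small_one 13 hp 506 31 (-12288000) (403) _ (by rw [l30]; norm_num) (by norm_num)
      (by decide +kernel)

theorem six_17 [Fact (Nat.Prime 17)] : Six 17 := by
  have hp : Nat.Prime 17 := Fact.out
  have l33 : legendreSym 17 (-33) = 1 := by norm_num
  have l30 : legendreSym 17 (-30) = 1 := by norm_num
  have l15 : legendreSym 17 (-15) = 1 := by norm_num
  have l5 : legendreSym 17 (-5) = -1 := by norm_num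
  refine ⟨?_, ?_, ?_, ?_, ?_, ?_⟩
  · exact small_one 17 hp 63 8 ((-15) ^ 3) (136) _ (by rw [l15]; norm_num) (by norm_num)
      (by decide +kernel)
  · intro h
    exact absurd rfl h
  · exact small_one 17 hp 28 3 (20 ^ 3) (-51) _ (by rw [l5]; norm_num) (by norm_num)
      (by decide +kernel)
  · intro _
    exact small_one 17 hp 63 5 (66 ^ 3) (85) _ (by rw [l33]; norm_num) (by norm_num)
      (by decide +kernel)
  · exact small_one 17 hp 11 1 (54000) (17) _ (by rw [l15]; norm_num) (by norm_num)
      (by decide +kernel)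
  · exact small_one 17 hp 506 31 (-12288000) (527) _ (by rw [l30]; norm_num) (by norm_num)
      (by decide +kernel)

theorem six_19 [Fact (Nat.Prime 19)] : Six 19 := by
  have hp : Nat.Prime 19 := Fact.out
  have l255 : legendreSym 19 (-255) = 1 := by norm_num
  have l33 : legendreSym 19 (-33) = 1 := by norm_num
  have l30 : legendreSym 19 (-30) = -1 := by norm_num
  have l15 : legendreSym 19 (-15) = 1 := by norm_num
  have l5 : legendreSym 19 (-5) = -1 := by norm_num
  refine ⟨?_, ?_, ?_, ?_, ?_, ?_⟩
  · exact small_one 19 hp 63 8 ((-15) ^ 3) (152) _ (by rw [l15]; norm_num) (by norm_num)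
      (by decide +kernel)
  · intro _
    exact small_one 19 hp 133 8 (255 ^ 3) (152) _ (by rw [l255]; norm_num) (by norm_num)
      (by decide +kernel)
  · exact small_one 19 hp 28 3 (20 ^ 3) (-57) _ (by rw [l5]; norm_num) (by norm_num)
      (by decide +kernel)
  · intro _
    exact small_one 19 hp 63 5 (66 ^ 3) (95) _ (by rw [l33]; norm_num) (by norm_num)
      (by decide +kernel)
  · exact small_one 19 hp 11 1 (54000) (19) _ (by rw [l15]; norm_num) (by norm_num)
      (by decide +kernel)
  · exact small_one 19 hp 506 31 (-12288000) (-589) _ (by rw [l30]; norm_num) (by norm_num)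
      (by decide +kernel)

theorem six_23 [Fact (Nat.Prime 23)] : Six 23 := by
  have hp : Nat.Prime 23 := Fact.out
  have l255 : legendreSym 23 (-255) = -1 := by norm_num
  have l33 : legendreSym 23 (-33) = 1 := by norm_num
  have l30 : legendreSym 23 (-30) = 1 := by norm_num
  have l15 : legendreSym 23 (-15) = 1 := by norm_num
  have l5 : legendreSym 23 (-5) = 1 := by norm_num
  refine ⟨?_, ?_, ?_, ?_, ?_, ?_⟩
  · exact small_one 23 hp 63 8 ((-15) ^ 3) (184) _ (by rw [l15]; norm_num) (by norm_num)
      (by decide +kernel)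
  · intro _
    exact small_one 23 hp 133 8 (255 ^ 3) (-184) _ (by rw [l255]; norm_num) (by norm_num)
      (by decide +kernel)
  · exact small_one 23 hp 28 3 (20 ^ 3) (69) _ (by rw [l5]; norm_num) (by norm_num)
      (by decide +kernel)
  · intro _
    exact small_one 23 hp 63 5 (66 ^ 3) (115) _ (by rw [l33]; norm_num) (by norm_num)
      (by decide +kernel)
  · exact small_one 23 hp 11 1 (54000) (23) _ (by rw [l15]; norm_num) (by norm_num)
      (by decide +kernel)
  · exact small_one 23 hp 506 31 (-12288000) (713) _ (by rw [l30]; norm_num) (by norm_num)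
      (by decide +kernel)

theorem six_29 [Fact (Nat.Prime 29)] : Six 29 := by
  have hp : Nat.Prime 29 := Fact.out
  have l255 : legendreSym 29 (-255) = 1 := by norm_num
  have l33 : legendreSym 29 (-33) = 1 := by norm_num
  have l30 : legendreSym 29 (-30) = 1 := by norm_num
  have l15 : legendreSym 29 (-15) = -1 := by norm_num
  have l5 : legendreSym 29 (-5) = 1 := by norm_num
  refine ⟨?_, ?_, ?_, ?_, ?_, ?_⟩
  · exact small_one 29 hp 63 8 ((-15) ^ 3) (-232) _ (by rw [l15]; norm_num) (by norm_num)
      (by decide +kernel)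
  · intro _
    exact small_one 29 hp 133 8 (255 ^ 3) (232) _ (by rw [l255]; norm_num) (by norm_num)
      (by decide +kernel)
  · exact small_one 29 hp 28 3 (20 ^ 3) (87) _ (by rw [l5]; norm_num) (by norm_num)
      (by decide +kernel)
  · intro _
    exact small_one 29 hp 63 5 (66 ^ 3) (145) _ (by rw [l33]; norm_num) (by norm_num)
      (by decide +kernel)
  · exact small_one 29 hp 11 1 (54000) (-29) _ (by rw [l15]; norm_num) (by norm_num)
      (by decide +kernel)
  · exact small_one 29 hp 506 31 (-12288000) (899) _ (by rw [l30]; norm_num) (by norm_num)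
      (by decide +kernel)

theorem six_31 [Fact (Nat.Prime 31)] : Six 31 := by
  have hp : Nat.Prime 31 := Fact.out
  have l255 : legendreSym 31 (-255) = -1 := by norm_num
  have l33 : legendreSym 31 (-33) = -1 := by norm_num
  have l30 : legendreSym 31 (-30) = 1 := by norm_num
  have l15 : legendreSym 31 (-15) = 1 := by norm_num
  have l5 : legendreSym 31 (-5) = -1 := by norm_num
  refine ⟨?_, ?_, ?_, ?_, ?_, ?_⟩
  · exact small_one 31 hp 63 8 ((-15) ^ 3) (248) _ (by rw [l15]; norm_num) (by norm_num)
      (by decide +kernel)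
  · intro _
    exact small_one 31 hp 133 8 (255 ^ 3) (-248) _ (by rw [l255]; norm_num) (by norm_num)
      (by decide +kernel)
  · exact small_one 31 hp 28 3 (20 ^ 3) (-93) _ (by rw [l5]; norm_num) (by norm_num)
      (by decide +kernel)
  · intro _
    exact small_one 31 hp 63 5 (66 ^ 3) (-155) _ (by rw [l33]; norm_num) (by norm_num)
      (by decide +kernel)
  · exact small_one 31 hp 11 1 (54000) (31) _ (by rw [l15]; norm_num) (by norm_num)
      (by decide +kernel)
  · exact small_one 31 hp 506 31 (-12288000) (961) _ (by rw [l30]; norm_num) (by norm_num)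
      (by decide +kernel)

theorem six_37 [Fact (Nat.Prime 37)] : Six 37 := by
  have hp : Nat.Prime 37 := Fact.out
  have l255 : legendreSym 37 (-255) = 1 := by norm_num
  have l33 : legendreSym 37 (-33) = 1 := by norm_num
  have l30 : legendreSym 37 (-30) = 1 := by norm_num
  have l15 : legendreSym 37 (-15) = -1 := by norm_num
  have l5 : legendreSym 37 (-5) = -1 := by norm_num
  refine ⟨?_, ?_, ?_, ?_, ?_, ?_⟩
  · exact small_one 37 hp 63 8 ((-15) ^ 3) (-296) _ (by rw [l15]; norm_num) (by norm_num)
      (by decide +kernel)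
  · intro _
    exact small_one 37 hp 133 8 (255 ^ 3) (296) _ (by rw [l255]; norm_num) (by norm_num)
      (by decide +kernel)
  · exact small_one 37 hp 28 3 (20 ^ 3) (-111) _ (by rw [l5]; norm_num) (by norm_num)
      (by decide +kernel)
  · intro _
    exact small_one 37 hp 63 5 (66 ^ 3) (185) _ (by rw [l33]; norm_num) (by norm_num)
      (by decide +kernel)
  · exact small_one 37 hp 11 1 (54000) (-37) _ (by rw [l15]; norm_num) (by norm_num)
      (by decide +kernel)
  · exact small_one 37 hp 506 31 (-12288000) (1147) _ (by rw [l30]; norm_num) (by norm_num)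
      (by decide +kernel)

theorem six_41 [Fact (Nat.Prime 41)] : Six 41 := by
  have hp : Nat.Prime 41 := Fact.out
  have l255 : legendreSym 41 (-255) = 1 := by norm_num
  have l33 : legendreSym 41 (-33) = 1 := by norm_num
  have l30 : legendreSym 41 (-30) = -1 := by norm_num
  have l15 : legendreSym 41 (-15) = -1 := by norm_num
  have l5 : legendreSym 41 (-5) = 1 := by norm_num
  refine ⟨?_, ?_, ?_, ?_, ?_, ?_⟩
  · exact small_one 41 hp 63 8 ((-15) ^ 3) (-328) _ (by rw [l15]; norm_num) (by norm_num)
      (by decide +kernel)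
  · intro _
    exact small_one 41 hp 133 8 (255 ^ 3) (328) _ (by rw [l255]; norm_num) (by norm_num)
      (by decide +kernel)
  · exact small_one 41 hp 28 3 (20 ^ 3) (123) _ (by rw [l5]; norm_num) (by norm_num)
      (by decide +kernel)
  · intro _
    exact small_one 41 hp 63 5 (66 ^ 3) (205) _ (by rw [l33]; norm_num) (by norm_num)
      (by decide +kernel)
  · exact small_one 41 hp 11 1 (54000) (-41) _ (by rw [l15]; norm_num) (by norm_num)
      (by decide +kernel)
  · exact small_one 41 hp 506 31 (-12288000) (-1271) _ (by rw [l30]; norm_num) (by norm_num)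
      (by decide +kernel)

theorem six_43 [Fact (Nat.Prime 43)] : Six 43 := by
  have hp : Nat.Prime 43 := Fact.out
  have l255 : legendreSym 43 (-255) = -1 := by norm_num
  have l33 : legendreSym 43 (-33) = 1 := by norm_num
  have l30 : legendreSym 43 (-30) = 1 := by norm_num
  have l15 : legendreSym 43 (-15) = -1 := by norm_num
  have l5 : legendreSym 43 (-5) = 1 := by norm_num
  refine ⟨?_, ?_, ?_, ?_, ?_, ?_⟩
  · exact small_one 43 hp 63 8 ((-15) ^ 3) (-344) _ (by rw [l15]; norm_num) (by norm_num)
      (by decide +kernel)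
  · intro _
    exact small_one 43 hp 133 8 (255 ^ 3) (-344) _ (by rw [l255]; norm_num) (by norm_num)
      (by decide +kernel)
  · exact small_one 43 hp 28 3 (20 ^ 3) (129) _ (by rw [l5]; norm_num) (by norm_num)
      (by decide +kernel)
  · intro _
    exact small_one 43 hp 63 5 (66 ^ 3) (215) _ (by rw [l33]; norm_num) (by norm_num)
      (by decide +kernel)
  · exact small_one 43 hp 11 1 (54000) (-43) _ (by rw [l15]; norm_num) (by norm_num)
      (by decide +kernel)
  · exact small_one 43 hp 506 31 (-12288000) (1333) _ (by rw [l30]; norm_num) (by norm_num)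
      (by decide +kernel)

theorem six_47 [Fact (Nat.Prime 47)] : Six 47 := by
  have hp : Nat.Prime 47 := Fact.out
  have l255 : legendreSym 47 (-255) = 1 := by norm_num
  have l33 : legendreSym 47 (-33) = 1 := by norm_num
  have l30 : legendreSym 47 (-30) = 1 := by norm_num
  have l15 : legendreSym 47 (-15) = 1 := by norm_num
  have l5 : legendreSym 47 (-5) = 1 := by norm_num
  refine ⟨?_, ?_, ?_, ?_, ?_, ?_⟩
  · exact small_one 47 hp 63 8 ((-15) ^ 3) (376) _ (by rw [l15]; norm_num) (by norm_num)
      (by decide +kernel)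
  · intro _
    exact small_one 47 hp 133 8 (255 ^ 3) (376) _ (by rw [l255]; norm_num) (by norm_num)
      (by decide +kernel)
  · exact small_one 47 hp 28 3 (20 ^ 3) (141) _ (by rw [l5]; norm_num) (by norm_num)
      (by decide +kernel)
  · intro _
    exact small_one 47 hp 63 5 (66 ^ 3) (235) _ (by rw [l33]; norm_num) (by norm_num)
      (by decide +kernel)
  · exact small_one 47 hp 11 1 (54000) (47) _ (by rw [l15]; norm_num) (by norm_num)
      (by decide +kernel)
  · exact small_one 47 hp 506 31 (-12288000) (1457) _ (by rw [l30]; norm_num) (by norm_num)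
      (by decide +kernel)

theorem six_53 [Fact (Nat.Prime 53)] : Six 53 := by
  have hp : Nat.Prime 53 := Fact.out
  have l255 : legendreSym 53 (-255) = 1 := by norm_num
  have l33 : legendreSym 53 (-33) = -1 := by norm_num
  have l30 : legendreSym 53 (-30) = -1 := by norm_num
  have l15 : legendreSym 53 (-15) = 1 := by norm_num
  have l5 : legendreSym 53 (-5) = -1 := by norm_num
  refine ⟨?_, ?_, ?_, ?_, ?_, ?_⟩
  · exact small_one 53 hp 63 8 ((-15) ^ 3) (424) _ (by rw [l15]; norm_num) (by norm_num)
      (by decide +kernel)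
  · intro _
    exact small_one 53 hp 133 8 (255 ^ 3) (424) _ (by rw [l255]; norm_num) (by norm_num)
      (by decide +kernel)
  · exact small_one 53 hp 28 3 (20 ^ 3) (-159) _ (by rw [l5]; norm_num) (by norm_num)
      (by decide +kernel)
  · intro _
    exact small_one 53 hp 63 5 (66 ^ 3) (-265) _ (by rw [l33]; norm_num) (by norm_num)
      (by decide +kernel)
  · exact small_one 53 hp 11 1 (54000) (53) _ (by rw [l15]; norm_num) (by norm_num)
      (by decide +kernel)
  · exact small_one 53 hp 506 31 (-12288000) (-1643) _ (by rw [l30]; norm_num) (by norm_num)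
      (by decide +kernel)

theorem six_59 [Fact (Nat.Prime 59)] : Six 59 := by
  have hp : Nat.Prime 59 := Fact.out
  have l255 : legendreSym 59 (-255) = -1 := by norm_num
  have l33 : legendreSym 59 (-33) = 1 := by norm_num
  have l30 : legendreSym 59 (-30) = 1 := by norm_num
  have l15 : legendreSym 59 (-15) = -1 := by norm_num
  have l5 : legendreSym 59 (-5) = -1 := by norm_num
  refine ⟨?_, ?_, ?_, ?_, ?_, ?_⟩
  · exact small_one 59 hp 63 8 ((-15) ^ 3) (-472) _ (by rw [l15]; norm_num) (by norm_num)
      (by decide +kernel)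
  · intro _
    exact small_one 59 hp 133 8 (255 ^ 3) (-472) _ (by rw [l255]; norm_num) (by norm_num)
      (by decide +kernel)
  · exact small_one 59 hp 28 3 (20 ^ 3) (-177) _ (by rw [l5]; norm_num) (by norm_num)
      (by decide +kernel)
  · intro _
    exact small_one 59 hp 63 5 (66 ^ 3) (295) _ (by rw [l33]; norm_num) (by norm_num)
      (by decide +kernel)
  · exact small_one 59 hp 11 1 (54000) (-59) _ (by rw [l15]; norm_num) (by norm_num)
      (by decide +kernel)
  · exact small_one 59 hp 506 31 (-12288000) (1829) _ (by rw [l30]; norm_num) (by norm_num)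
      (by decide +kernel)

theorem small : Pool.Agent.H547.C9.S_h := by
  intro p hpf h5 h60
  have hcase : p = 7 ∨ p = 11 ∨ p = 13 ∨ p = 17 ∨ p = 19 ∨ p = 23 ∨ p = 29 ∨ p = 31 ∨ p = 37 ∨
      p = 41 ∨ p = 43 ∨ p = 47 ∨ p = 53 ∨ p = 59 := by
    have h0 := hpf.out
    clear hpf
    interval_cases p <;> first | omega | (exfalso; revert h0; norm_num)
  rcases hcase with rfl | rfl | rfl | rfl | rfl | rfl | rfl | rfl | rfl | rfl | rfl | rfl | rfl | rfl
  · exact six_7
  · exact six_11
  · exact six_13
  · exact six_17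
  · exact six_19
  · exact six_23
  · exact six_29
  · exact six_31
  · exact six_37
  · exact six_41
  · exact six_43
  · exact six_47
  · exact six_53
  · exact six_59

end Pool.Agent.H134.C9
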